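import Pool.Agent.X298.HT.Defs
import Pool.Agent.X298.II.BMain

/-!
# Modularity and one sum of products of Frobenius traces and traces of Hecke operators
-/

set_option autoImplicit false

open Filter Topology Asymptotics
open IsDedekindDomain NumberField

namespace Pool.Agent.X298.HT

open Pool.Agent.X298.ST Pool.Agent.X298.II Pool.Agent.X287.CR
open Pool.Agent.W189.ML (om om_nonneg om_le_const)

variable {F : Type} [Field F] [NumberField F] {S : Set (HeightOneSpectrum (𝓞 F))} {n : ℕ}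
  {I : Type} [Fintype I]

omit [NumberField F] in
theorem pw_le (π : Param S n) (v : Places S) (k : ℕ) : ‖π.pw v k‖ ≤ n := by
  unfold Param.pw
  refine (norm_sum_le _ _).trans ?_
  simp [norm_pow, π.norm]

theorem rs_le (π σ : Param S n) (x : Places S × ℕ) : ‖rs π σ x‖ ≤ (n : ℝ) * n := by
  unfold rs
  rw [norm_mul, RCLike.norm_conj]
  exact mul_le_mul (pw_le _ _ _) (pw_le _ _ _) (norm_nonneg _) (Nat.cast_nonneg _)

theorem hTerm_sum (π : Param S n) (σ : I → Param S n) (γ T : ℝ) (x : Places S × ℕ) :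
    hTerm π σ γ T x = ∑ i, bTerm (rs π (σ i)) 1 γ T x := by
  have h1 : ((nrm x.1 : ℂ) ^ (-(1 : ℂ))) ^ (x.2 + 1) = ((nrm x.1 : ℂ) ^ (x.2 + 1))⁻¹ := by
    rw [Complex.cpow_neg, Complex.cpow_one, inv_pow]
  unfold hTerm heckeTr
  rw [map_sum, Finset.mul_sum, Finset.sum_div, Finset.sum_mul, Finset.sum_div]
  refine Finset.sum_congr rfl fun i _ => ?_
  unfold bTerm rs
  rw [h1]
  ring

theorem h_summable (π : Param S n) (σ : I → Param S n) (γ : ℝ) {T : ℝ} (hT : 0 < T) :
    Summable fun x => ‖hTerm π σ γ T x‖ := by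
  refine Summable.of_nonneg_of_le (fun x => norm_nonneg _) (fun x => ?_)
    (summable_sum (s := Finset.univ) fun i _ => b_summable (rs_le π (σ i)) 1 γ hT)
  rw [hTerm_sum]
  exact norm_sum_le _ _

theorem hSum_eq (π : Param S n) (σ : I → Param S n) (γ : ℝ) {T : ℝ} (hT : 0 < T) :
    hSum π σ γ T = ∑ i, bSum (rs π (σ i)) 1 γ T := by
  unfold hSum bSum
  rw [← Summable.tsum_finsetSum fun i _ => (b_summable (rs_le π (σ i)) 1 γ hT).of_norm]
  exact tsum_congr fun x => hTerm_sum π σ γ T x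

/-- the asymptotic formula -/
theorem h_asy (π : Param S n) (σ : I → Param S n) (Λ : I → ℂ → ℂ) (hc : ∀ i, IsCont (rs π (σ i)) 1 (Λ i))
    (N : ℕ) (hN : ∃ m : I → ℕ, (∀ i, meromorphicOrderAt (Λ i) 1 = ((-(m i : ℤ) : ℤ) : WithTop ℤ)) ∧ ∑ i, m i = N)
    {γ : ℝ} (hγ : Real.pi / 2 < γ) :
    ∃ r : ℂ, (fun T : ℝ => hSum π σ γ T - (r + N * (Real.log T - Lambda γ))) =O[atTop] (fun T : ℝ => 1 / T) := by
  obtain ⟨m, hm, hmN⟩ := hN
  choose m' r h1 h2 h3 using fun i => b_asy (rs_le π (σ i)) (hc i) hγ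
  have hmm : ∀ i, m' i = -(m i : ℤ) := fun i => by
    have := h1 i
    rw [hm i] at this
    exact_mod_cast this.symm
  refine ⟨∑ i, r i, ?_⟩
  have h4 : (fun T : ℝ => ∑ i, (bSum (rs π (σ i)) 1 γ T - (r i - m' i * (Real.log T - Lambda γ)))) =O[atTop]
      (fun T : ℝ => 1 / T) := IsBigO.fun_sum fun i _ => h3 i
  refine h4.congr' ?_ EventuallyEq.rfl
  filter_upwards [eventually_gt_atTop (0 : ℝ)] with T hT
  rw [hSum_eq π σ γ hT, Finset.sum_sub_distrib, Finset.sum_sub_distrib, ← Finset.sum_mul, ← hmN]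
  simp only [hmm]
  push_cast
  rw [Finset.sum_neg_distrib]
  ring

/-- the difference of the two sums is bounded -/
theorem diff_bdd (π : Param S n) (σ : I → Param S n) (γ : ℝ) :
    (∀ T : ℝ, 0 < T → Summable fun v => ‖pTerm π σ γ T v‖) ∧
      ∃ C : ℝ, ∀ T : ℝ, 0 < T → ‖hSum π σ γ T - pSum π σ γ T‖ ≤ C := by
  classical
  have hval : ∀ (T : ℝ) (v : Places S), pTerm π σ γ T v = hTerm π σ γ T (v, 0) := by
    intro T v
    unfold pTerm hTerm
    simp
  have hinj : Function.Injective fun v : Places S => ((v, 0) : Places S × ℕ) := fun v w h => (Prod.mk.inj h).1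
  refine ⟨fun T hT => ?_, ?_⟩
  · refine ((h_summable π σ γ hT).comp_injective hinj).congr fun v => ?_
    simp only [Function.comp_apply]
    rw [hval]
  · set B : ℝ := ((n : ℝ) * (Fintype.card I * n)) * (Real.exp 1 + 1) with hB
    have hB0 : 0 ≤ B := by positivity
    set g : Places S × ℕ → ℝ := fun x => (2 * B * (nrm x.1 : ℝ) ^ (-(2 : ℝ))) * (1 / 2 : ℝ) ^ x.2 with hg
    have hgs : Summable g := by
      have h1 : Summable fun v : Places S => 2 * B * (nrm v : ℝ) ^ (-(2 : ℝ)) :=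
        ((qsys S).sum 2 (by norm_num)).mul_left _
      have h2 : Summable fun j : ℕ => (1 / 2 : ℝ) ^ j := summable_geometric_two
      exact h1.mul_of_nonneg h2 (fun v => by positivity) (fun j => by positivity)
    refine ⟨∑' x, g x, fun T hT => ?_⟩
    set R : Places S × ℕ → ℂ := fun x => if x.2 = 0 then 0 else hTerm π σ γ T x with hR
    set Z : Places S × ℕ → ℂ := fun x => if x.2 = 0 then hTerm π σ γ T x else 0 with hZ
    have hsum := (h_summable π σ γ hT).of_norm
    have hRle : ∀ x, ‖R x‖ ≤ ‖hTerm π σ γ T x‖ := by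
      intro x
      rw [hR]
      simp only
      split_ifs
      · rw [norm_zero]; exact norm_nonneg _
      · exact le_rfl
    have hZle : ∀ x, ‖Z x‖ ≤ ‖hTerm π σ γ T x‖ := by
      intro x
      rw [hZ]
      simp only
      split_ifs
      · exact le_rfl
      · rw [norm_zero]; exact norm_nonneg _
    have hRs : Summable R := (Summable.of_nonneg_of_le (fun x => norm_nonneg _) hRle (h_summable π σ γ hT)).of_norm
    have hZs : Summable Z := (Summable.of_nonneg_of_le (fun x => norm_nonneg _) hZle (h_summable π σ γ hT)).of_norm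
    have hsplit : hSum π σ γ T = ∑' x, R x + ∑' x, Z x := by
      unfold hSum
      rw [← hRs.tsum_add hZs]
      refine tsum_congr fun x => ?_
      rw [hR, hZ]
      simp only
      split_ifs <;> simp
    have hZp : ∑' x, Z x = pSum π σ γ T := by
      unfold pSum
      rw [← hinj.tsum_eq]
      · refine tsum_congr fun v => ?_
        rw [hZ, hval]
        simp
      · intro x hx
        rw [Function.mem_support, hZ] at hx
        simp only [ne_eq, ite_eq_right_iff, Classical.not_imp] at hx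
        exact ⟨x.1, by rw [← hx.1]⟩
    rw [hsplit, hZp, add_sub_cancel_right]
    have hRg : ∀ x, ‖R x‖ ≤ g x := by
      intro x
      have hq2 : (2 : ℝ) ≤ nrm x.1 := by exact_mod_cast (qsys S).two_le x.1
      have hq0 : (0 : ℝ) < nrm x.1 := by linarith
      rw [hR, hg]
      simp only
      split_ifs with h0
      · rw [norm_zero]; positivity
      · obtain ⟨j, hj⟩ := Nat.exists_eq_succ_of_ne_zero h0
        have hu : 0 ≤ lam nrm x / T := div_nonneg ((qsys S).csys.lam_nonneg x) hT.le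
        have e1 : hTerm π σ γ T x = π.pw x.1 (x.2 + 1) * (starRingEnd ℂ) (heckeTr σ x.1 (x.2 + 1)) *
            ((((nrm x.1 : ℝ) ^ (x.2 + 1))⁻¹ : ℝ) : ℂ) * (Complex.exp ((γ * (lam nrm x / T) : ℝ) * Complex.I)) *
            (om (lam nrm x / T) : ℂ) * ((((x.2 : ℝ) + 1)⁻¹ : ℝ) : ℂ) := by
          unfold hTerm om lam
          push_cast
          field_simp
        have hh : ‖heckeTr σ x.1 (x.2 + 1)‖ ≤ Fintype.card I * n := by
          unfold heckeTr
          refine (norm_sum_le _ _).trans ?_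
          refine (Finset.sum_le_sum fun i _ => pw_le (σ i) x.1 (x.2 + 1)).trans ?_
          rw [Finset.sum_const, Finset.card_univ, nsmul_eq_mul]
        have hom := om_le_const hu
        have hom0 := om_nonneg hu
        rw [e1, norm_mul, norm_mul, norm_mul, norm_mul, norm_mul, RCLike.norm_conj, Complex.norm_exp_ofReal_mul_I,
          Complex.norm_real, Complex.norm_real, Complex.norm_real, Real.norm_eq_abs, Real.norm_eq_abs, Real.norm_eq_abs,
          abs_of_nonneg hom0, abs_of_nonneg (by positivity : (0 : ℝ) ≤ ((nrm x.1 : ℝ) ^ (x.2 + 1))⁻¹),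
          abs_of_nonneg (by positivity : (0 : ℝ) ≤ ((x.2 : ℝ) + 1)⁻¹), mul_one]
        have hk : ((x.2 : ℝ) + 1)⁻¹ ≤ 1 := by
          apply inv_le_one_of_one_le₀
          have : (0 : ℝ) ≤ x.2 := Nat.cast_nonneg _
          linarith
        have hpow : ((nrm x.1 : ℝ) ^ (x.2 + 1))⁻¹ ≤ 2 * (nrm x.1 : ℝ) ^ (-(2 : ℝ)) * (1 / 2 : ℝ) ^ x.2 := by
          rw [hj, Real.rpow_neg hq0.le]
          have e2 : (nrm x.1 : ℝ) ^ (2 : ℝ) = (nrm x.1 : ℝ) ^ (2 : ℕ) := by
            rw [← Real.rpow_natCast]; norm_num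
          rw [e2]
          have e3 : (nrm x.1 : ℝ) ^ (j.succ + 1) = (nrm x.1 : ℝ) ^ 2 * (nrm x.1 : ℝ) ^ j := by
            rw [← pow_add]; congr 1; omega
          rw [e3, mul_inv]
          have e4 : 2 * ((nrm x.1 : ℝ) ^ 2)⁻¹ * (1 / 2 : ℝ) ^ j.succ = ((nrm x.1 : ℝ) ^ 2)⁻¹ * (1 / 2 : ℝ) ^ j := by
            have e5 : (1 / 2 : ℝ) ^ j.succ = (1 / 2 : ℝ) ^ j * (1 / 2) := pow_succ _ _
            rw [e5]; ring
          rw [e4]
          refine mul_le_mul_of_nonneg_left ?_ (by positivity)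
          rw [one_div, inv_pow]
          exact inv_anti₀ (by positivity) (pow_le_pow_left₀ (by norm_num) hq2 j)
        calc ‖π.pw x.1 (x.2 + 1)‖ * ‖heckeTr σ x.1 (x.2 + 1)‖ * ((nrm x.1 : ℝ) ^ (x.2 + 1))⁻¹ *
              om (lam nrm x / T) * ((x.2 : ℝ) + 1)⁻¹
            ≤ (n : ℝ) * (Fintype.card I * n) * (2 * (nrm x.1 : ℝ) ^ (-(2 : ℝ)) * (1 / 2 : ℝ) ^ x.2) *
              (Real.exp 1 + 1) * 1 := by
              gcongr
              exact pw_le π x.1 (x.2 + 1)
          _ = 2 * B * (nrm x.1 : ℝ) ^ (-(2 : ℝ)) * (1 / 2 : ℝ) ^ x.2 := by rw [hB]; ring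
    have hRn : Summable fun x => ‖R x‖ := Summable.of_nonneg_of_le (fun x => norm_nonneg _) hRg hgs
    exact (norm_tsum_le_tsum_norm hRn).trans (hRn.tsum_le_tsum hRg hgs)

/-- the alternative -/
theorem alt {H : ℝ → ℂ} {N : ℕ} {r c : ℂ}
    (h : (fun T : ℝ => H T - (r + N * (Real.log T - c))) =O[atTop] (fun T : ℝ => 1 / T)) {P : ℝ → ℂ} {C : ℝ}
    (hP : ∀ T : ℝ, 0 < T → ‖H T - P T‖ ≤ C) :
    (N ≠ 0 → Tendsto (fun T => (P T).re) atTop atTop) ∧
      (N = 0 → ∃ C' : ℝ, ∀ᶠ T : ℝ in atTop, (P T).re ≤ C') := by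
  have h' : (fun T : ℝ => -H T - (-r - N * (Real.log T - c))) =O[atTop] (fun T : ℝ => 1 / T) := by
    refine h.neg_left.congr_left fun T => ?_
    ring
  obtain ⟨h1, h2⟩ := re_tend h'
  have hre : ∀ T : ℝ, 0 < T → |(H T).re - (P T).re| ≤ C := fun T hT => by
    have := (Complex.abs_re_le_norm (H T - P T)).trans (hP T hT)
    rwa [Complex.sub_re] at this
  constructor
  · intro hN
    have h3 := h1 hN
    have h4 : Tendsto (fun T => (H T).re) atTop atTop := by
      have := tendsto_neg_atBot_atTop.comp h3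
      refine this.congr fun T => ?_
      simp
    refine tendsto_atTop_mono' atTop ?_ (tendsto_atTop_add_const_right _ (-C) h4)
    filter_upwards [eventually_gt_atTop (0 : ℝ)] with T hT
    have := abs_le.mp (hre T hT)
    linarith [this.2]
  · intro hN
    obtain ⟨C₀, hC₀⟩ := h2 hN
    refine ⟨-C₀ + C, ?_⟩
    filter_upwards [hC₀, eventually_gt_atTop (0 : ℝ)] with T h3 hT
    have h4 := abs_le.mp (hre T hT)
    rw [Complex.neg_re] at h3
    linarith [h4.1]

/-- the limit of the quotient by `log T` -/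
theorem lim {H : ℝ → ℂ} {N : ℕ} {r c : ℂ}
    (h : (fun T : ℝ => H T - (r + N * (Real.log T - c))) =O[atTop] (fun T : ℝ => 1 / T)) {P : ℝ → ℂ} {C : ℝ}
    (hP : ∀ T : ℝ, 0 < T → ‖H T - P T‖ ≤ C) :
    Tendsto (fun T : ℝ => P T / (Real.log T : ℂ)) atTop (𝓝 (N : ℂ)) := by
  have hlog : Tendsto (fun T : ℝ => (Real.log T : ℝ)) atTop atTop := Real.tendsto_log_atTop
  obtain ⟨C₁, hC₁⟩ := h.bound
  set D : ℝ := C + |C₁| + ‖r - N * c‖ with hD
  have key : ∀ᶠ T : ℝ in atTop, ‖P T / (Real.log T : ℂ) - N‖ ≤ D * (Real.log T)⁻¹ := by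
    filter_upwards [hC₁, eventually_ge_atTop (1 : ℝ), hlog.eventually_gt_atTop 0] with T h1 hT hl
    have hT0 : 0 < T := by linarith
    have hlc : (Real.log T : ℂ) ≠ 0 := by exact_mod_cast hl.ne'
    have e1 : P T / (Real.log T : ℂ) - N =
        (-(H T - P T) + (H T - (r + N * (Real.log T - c))) + (r - N * c)) * ((Real.log T : ℂ))⁻¹ := by
      field_simp
      ring
    rw [e1, norm_mul, norm_inv, Complex.norm_real, Real.norm_eq_abs, abs_of_pos hl]
    refine mul_le_mul_of_nonneg_right ?_ (inv_nonneg.mpr hl.le)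
    refine (norm_add_le _ _).trans ?_
    rw [hD]
    refine add_le_add ((norm_add_le _ _).trans (add_le_add ?_ ?_)) le_rfl
    · rw [norm_neg]
      exact hP T hT0
    · refine h1.trans ?_
      have h2 : ‖1 / T‖ ≤ 1 := by
        rw [Real.norm_eq_abs, abs_of_pos (by positivity), div_le_one hT0]
        exact hT
      calc C₁ * ‖1 / T‖ ≤ |C₁| * ‖1 / T‖ := mul_le_mul_of_nonneg_right (le_abs_self _) (norm_nonneg _)
        _ ≤ |C₁| * 1 := mul_le_mul_of_nonneg_left h2 (abs_nonneg _)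
        _ = |C₁| := mul_one _
  have h0 : Tendsto (fun T : ℝ => D * (Real.log T)⁻¹) atTop (𝓝 0) := by
    have := (hlog.inv_tendsto_atTop).const_mul D
    rwa [mul_zero] at this
  rw [tendsto_iff_norm_sub_tendsto_zero]
  exact squeeze_zero' (Eventually.of_forall fun T => norm_nonneg _) key h0

end Pool.Agent.X298.HT
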