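import Pool.Agent.X298.II.BDefs

/-!
# Modularity and one sum of products of Frobenius traces and traces of Hecke operators: definitions
-/

set_option autoImplicit false

open Filter Topology
open IsDedekindDomain NumberField

namespace Pool.Agent.X298.HT

open Pool.Agent.X298.ST Pool.Agent.X298.II

variable {F : Type} [Field F] [NumberField F] {S : Set (HeightOneSpectrum (𝓞 F))} {n : ℕ}

/-- Normalised Frobenius eigenvalues (Satake parameters): `n` complex numbers of absolute value `1` for each place outside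
`S`. -/
structure Param (S : Set (HeightOneSpectrum (𝓞 F))) (n : ℕ) where
  a : Places S → Fin n → ℂ
  norm : ∀ v i, ‖a v i‖ = 1

/-- the trace of the `k`-th power -/
noncomputable def Param.pw (π : Param S n) (v : Places S) (k : ℕ) : ℂ := ∑ i, π.a v i ^ k

/-- The coefficients of `log L_S(s, π × σ~)`: `tr π_v^k` times the conjugate of `tr σ_v^k`, `v = x.1`, `k = x.2 + 1`. -/
noncomputable def rs (π σ : Param S n) (x : Places S × ℕ) : ℂ :=
  π.pw x.1 (x.2 + 1) * (starRingEnd ℂ) (σ.pw x.1 (x.2 + 1))

/-- `π` and `σ` have the same parameters outside `S` (the traces of all powers agree). -/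
def Assoc (π σ : Param S n) : Prop := ∀ v k, π.pw v k = σ.pw v k

/-- The sum over the family of the traces of the `k`-th powers: the trace of a Hecke operator at `v` on the space spanned by the
members of the family. -/
noncomputable def heckeTr {I : Type} [Fintype I] (σ : I → Param S n) (v : Places S) (k : ℕ) : ℂ := ∑ i, (σ i).pw v k

/-- The term `tr π_v^k · conj (heckeTr_v(k)) q_v^{-k} e^{iγu} / (k Γ(1 + u))`, `u = k log q_v / T`. -/
noncomputable def hTerm {I : Type} [Fintype I] (π : Param S n) (σ : I → Param S n) (γ T : ℝ) (x : Places S × ℕ) : ℂ :=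
  π.pw x.1 (x.2 + 1) * (starRingEnd ℂ) (heckeTr σ x.1 (x.2 + 1)) / (nrm x.1 : ℂ) ^ (x.2 + 1) *
      Complex.exp ((γ * ((x.2 + 1) * Real.log (nrm x.1) / T) : ℝ) * Complex.I) /
    (((x.2 + 1) * Real.Gamma (1 + (x.2 + 1) * Real.log (nrm x.1) / T) : ℝ) : ℂ)

/-- the sum of the terms over `v ∉ S`, `k ≥ 1` -/
noncomputable def hSum {I : Type} [Fintype I] (π : Param S n) (σ : I → Param S n) (γ T : ℝ) : ℂ :=
  ∑' x, hTerm π σ γ T x

/-- The term of `v`: `tr π_v · conj (heckeTr_v(1)) q_v^{-1} e^{iγu} / Γ(1 + u)`, `u = log q_v / T`. -/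
noncomputable def pTerm {I : Type} [Fintype I] (π : Param S n) (σ : I → Param S n) (γ T : ℝ) (v : Places S) : ℂ :=
  π.pw v 1 * (starRingEnd ℂ) (heckeTr σ v 1) / (nrm v : ℂ) *
      Complex.exp ((γ * (Real.log (nrm v) / T) : ℝ) * Complex.I) /
    ((Real.Gamma (1 + Real.log (nrm v) / T) : ℝ) : ℂ)

/-- the sum of the terms over the places `v ∉ S` only -/
noncomputable def pSum {I : Type} [Fintype I] (π : Param S n) (σ : I → Param S n) (γ T : ℝ) : ℂ :=
  ∑' v, pTerm π σ γ T v

end Pool.Agent.X298.HT
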